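import Pool.Agent.H33.HC.TC

/-!
# CNJ: complex conjugation of the coefficients
-/

set_option autoImplicit false

open NumberField Complex

namespace Pool.Agent.H77.HC

open Pool.Agent.H33.HC Pool.Agent.H33.HH Pool.Agent.H28.RC Pool.Agent.H37.CV
  Pool.Agent.H65.CRZ Pool.Agent.H65.CRG

theorem conj_rcpow {x : ℝ} (hx : 0 ≤ x) (w : ℂ) :
    (starRingEnd ℂ) ((x : ℂ) ^ w) = (x : ℂ) ^ ((starRingEnd ℂ) w) := by
  have harg : ((x : ℂ)).arg ≠ Real.pi := by
    rw [Complex.arg_ofReal_of_nonneg hx]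
    exact (ne_of_gt Real.pi_pos).symm
  rw [Complex.cpow_conj _ _ harg, Complex.conj_ofReal]

theorem conj_two_cpow (w : ℂ) :
    (starRingEnd ℂ) ((2 : ℂ) ^ w) = (2 : ℂ) ^ ((starRingEnd ℂ) w) := by
  have h := conj_rcpow (x := 2) (by norm_num) w
  simpa using h

theorem conj_Gs (G : ℝ → ℝ) (s : ℂ) (v : ℝ) :
    (starRingEnd ℂ) (Gs G s v) = Gs G ((starRingEnd ℂ) s) v := by
  unfold Gs
  rw [map_div₀, map_sub, map_mul, map_sub, map_one, conj_two_cpow, Complex.conj_ofReal,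
    Complex.conj_ofReal, map_sub, map_one]

theorem conj_gc (G : ℝ → ℝ) (Z : ℝ) (s : ℂ) {t : ℝ} (ht : 0 ≤ t) :
    (starRingEnd ℂ) (gc G Z s t) = gc G Z ((starRingEnd ℂ) s) t := by
  unfold gc
  rw [map_mul, conj_rcpow ht, conj_Gs, map_neg]

theorem pf_CNJ : T_CNJ := by
  intro K _ _ P y Z G s z n hZ
  unfold cfs
  split_ifs with h
  · rw [map_sum]
    refine Finset.sum_congr rfl fun S _ => ?_
    have hnm : (0 : ℝ) ≤ nm n := by unfold nm; positivity
    have hnS : (0 : ℝ) ≤ nS np S := by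
      unfold nS
      refine Finset.prod_nonneg fun p _ => ?_
      unfold np nm
      positivity
    rw [map_mul, map_mul, Complex.conj_ofReal, conj_rcpow hnS, map_neg,
      conj_gc _ _ _ (div_nonneg hnm hnS)]
  · simp

end Pool.Agent.H77.HC
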